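import Pool.Agent.Helper61.NW.Goals2

set_option autoImplicit false

/-!
# Packet DIH of project NW+: the concrete part
-/

namespace Pool.Agent.Helper11.NW

open Pool.Agent.Helper52.Wq2 Pool.Agent.Helper61.NW
open scoped Nat

universe u

/-- helper24's abstract part. -/
def DihAbs : Prop := ∀ (Γ : Type u) [Group Γ] (S : Set Γ) (X : Γ → ℤ) (H : ℤ)
  (ph : Equiv.Perm Γ) (c : Γ) (d : ℕ), IsGen S → 0 < H → (∀ g, X (ph g) = X g + H) →
  (∀ g, g⁻¹ * ph g ∈ S) → {g | 0 ≤ X g ∧ X g < H}.Finite →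
  (∀ g, ∀ t ∈ S, |X (g * t) - X g| ≤ H) →
  (∀ g g' : Γ, ∃ (x : Γ) (e k : ℤ), (e = 1 ∨ e = -1) ∧ (∀ y, x * ph y = (ph ^ e) (x * y)) ∧
    x * g = (ph ^ k) g') →
  (∀ y, c * ph y = ph (c * y)) → (∀ y, X (c * y) = X y + d * H) → 1 ≤ d → d ≤ 2 →
  ∃ (n m : ℕ) (G : SimpleGraph (ℤ × Fin n)), m ≤ 2 * (n ! * (n * n)) ∧ Lsys n m G ∧
    Nonempty (cay S ≃g G)

section

variable {Γ : Type u} [Group Γ] {ε : Γ →* ℤˣ} {h : Γ → ℤ}

theorem h_one (hd : Dh ε h) : h 1 = 0 := by
  have := hd.coc 1 1
  rw [mul_one, map_one, Units.val_one, one_mul] at this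
  omega

theorem eps_sq (g : Γ) : ((ε g : ℤˣ) : ℤ) * (ε g : ℤˣ) = 1 := by
  rcases Int.units_eq_one_or (ε g) with h | h <;> rw [h] <;> norm_num

theorem h_inv (hd : Dh ε h) (g : Γ) : h g⁻¹ = -(((ε g : ℤˣ) : ℤ) * h g) := by
  have h1 := hd.coc g g⁻¹
  rw [mul_inv_cancel, h_one hd] at h1
  have h2 := eps_sq (ε := ε) g
  have h3 : ((ε g : ℤˣ) : ℤ) * (((ε g : ℤˣ) : ℤ) * h g⁻¹) = -(((ε g : ℤˣ) : ℤ) * h g) := by
    have : ((ε g : ℤˣ) : ℤ) * h g⁻¹ = - h g := by linarith
    rw [this]; ring
  rw [← mul_assoc, h2, one_mul] at h3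
  exact h3

theorem fib_fin (hd : Dh ε h) (e : ℤˣ) (v : ℤ) : {g : Γ | ε g = e ∧ h g = v}.Finite := by
  rcases Set.eq_empty_or_nonempty {g : Γ | ε g = e ∧ h g = v} with h0 | ⟨g0, h1, h2⟩
  · rw [h0]; exact Set.finite_empty
  · refine (hd.ker.image (fun k => g0 * k)).subset ?_
    rintro g ⟨h3, h4⟩
    refine ⟨g0⁻¹ * g, ⟨?_, ?_⟩, by simp⟩
    · rw [map_mul, map_inv, h1, h3, inv_mul_cancel]
    · rw [hd.coc, h_inv hd, map_inv, h2, h4, h1]
      rcases Int.units_eq_one_or e with h | h <;> rw [h] <;> norm_num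

theorem dih_of (abs : DihAbs.{u}) : DihStmt.{u} := by
  intro Γ _ ε h S hd hS hf
  have sgn : ∀ g : Γ, ε g = 1 ∨ ε g = -1 := fun g => Int.units_eq_one_or _
  have hneg1 : ¬ ((-1 : ℤˣ) = 1) := by decide
  -- reflections in `S`
  have hR : {u | u ∈ S ∧ ε u = -1}.Nonempty := by
    by_contra hcon
    rw [Set.not_nonempty_iff_eq_empty] at hcon
    have hle : Subgroup.closure S ≤ ε.ker := by
      rw [Subgroup.closure_le]
      intro g hg
      rw [SetLike.mem_coe, MonoidHom.mem_ker]
      rcases sgn g with h1 | h1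
      · exact h1
      · exact absurd (show g ∈ {u | u ∈ S ∧ ε u = -1} from ⟨hg, h1⟩) (by rw [hcon]; exact id)
    obtain ⟨u, hu⟩ := hd.neg
    have : u ∈ ε.ker := hle (by rw [hS.1]; trivial)
    rw [MonoidHom.mem_ker, hu] at this
    exact hneg1 this
  have hRf : {u | u ∈ S ∧ ε u = -1}.Finite := hf.subset fun u hu => hu.1
  obtain ⟨t, ⟨htS, htε⟩, htmax⟩ := Set.exists_max_image _ h hRf hR
  obtain ⟨r, ⟨hrS, hrε⟩, hrmin⟩ := Set.exists_min_image _ h hRf hR
  obtain ⟨y₀, hy₀⟩ : ∃ y : ℤ, y = h t + h r := ⟨_, rfl⟩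
  let X : Γ → ℤ := fun g => 4 * h g + ((ε g : ℤˣ) : ℤ) * y₀
  have hXd : ∀ g, X g = 4 * h g + ((ε g : ℤˣ) : ℤ) * y₀ := fun g => rfl
  have hXmul : ∀ g u, X (g * u) - X g = ((ε g : ℤˣ) : ℤ) * (X u - y₀) := by
    intro g u
    rw [hXd, hXd, hXd, hd.coc, map_mul, Units.val_mul]
    ring
  have hXp : ∀ u, ε u = 1 → X u - y₀ = 4 * h u := by
    intro u hu
    rw [hXd, hu, Units.val_one]; ring
  have hXm : ∀ u, ε u = -1 → X u - y₀ = 4 * h u - 2 * (h t + h r) := by
    intro u hu
    rw [hXd, hu, Units.val_neg, Units.val_one, hy₀]; ring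
  have habs : ∀ g u, |X (g * u) - X g| = |X u - y₀| := by
    intro g u
    rw [hXmul, abs_mul]
    rcases sgn g with h1 | h1 <;> rw [h1] <;> norm_num
  have hcX : ∀ c y, ε c = 1 → X (c * y) = X y + 4 * h c := by
    intro c y hc
    rw [hXd, hXd, hd.coc, map_mul, hc, one_mul, Units.val_one]; ring
  have hfinX : ∀ H : ℤ, {g | 0 ≤ X g ∧ X g < H}.Finite := by
    intro H
    refine (Set.Finite.biUnion (Set.finite_Icc (-(|y₀| + |H|)) (|y₀| + |H|))
      (t := fun v => {g : Γ | ε g = 1 ∧ h g = v} ∪ {g : Γ | ε g = -1 ∧ h g = v})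
      (fun v _ => (fib_fin hd 1 v).union (fib_fin hd (-1) v))).subset ?_
    rintro g ⟨h1, h2⟩
    have hb : h g ∈ Set.Icc (-(|y₀| + |H|)) (|y₀| + |H|) := by
      have e1 := hXd g
      have a1 := le_abs_self y₀
      have a2 := neg_abs_le y₀
      have a3 := le_abs_self H
      have a4 := abs_nonneg H
      have a5 := abs_nonneg y₀
      rcases sgn g with h3 | h3
      · rw [h3, Units.val_one] at e1
        constructor <;> omega
      · rw [h3, Units.val_neg, Units.val_one] at e1
        constructor <;> omega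
    refine Set.mem_biUnion hb ?_
    rcases sgn g with h3 | h3
    · exact Or.inl ⟨h3, rfl⟩
    · exact Or.inr ⟨h3, rfl⟩
  by_cases hc : ∃ s ∈ S, ε s = 1 ∧ h t - h r ≤ 2 * |h s| ∧ h s ≠ 0
  · -- translations
    have hTf : {u | u ∈ S ∧ ε u = 1}.Finite := hf.subset fun u hu => hu.1
    obtain ⟨s0, hs0, hs1, hs2, hs3⟩ := hc
    obtain ⟨s1, ⟨hs4, hs5⟩, hs6⟩ := Set.exists_max_image _ (fun u => |h u|) hTf ⟨s0, hs0, hs1⟩
    have hs7 : |h s0| ≤ |h s1| := hs6 s0 ⟨hs0, hs1⟩
    have hs8 : 0 < |h s1| := lt_of_lt_of_le (abs_pos.2 hs3) hs7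
    obtain ⟨s, hs, hsε, hsp, hsa⟩ : ∃ s ∈ S, ε s = 1 ∧ 0 < h s ∧ h s = |h s1| := by
      rcases lt_or_gt_of_ne (abs_pos.1 hs8) with h1 | h1
      · refine ⟨s1⁻¹, hS.2.1 _ hs4, by rw [map_inv, hs5, inv_one], ?_, ?_⟩
        · rw [h_inv hd, hs5, Units.val_one]; omega
        · rw [h_inv hd, hs5, Units.val_one, abs_of_neg h1]; ring
      · exact ⟨s1, hs4, hs5, h1, (abs_of_pos h1).symm⟩
    have hεz : ∀ (g : Γ) (k : ℤ), ε (g * s ^ k) = ε g := by
      intro g k
      rw [map_mul, map_zpow, hsε, one_zpow, mul_one]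
    let ph : Equiv.Perm Γ :=
      { toFun := fun g => g * s ^ ((ε g : ℤˣ) : ℤ)
        invFun := fun g => g * s ^ (-((ε g : ℤˣ) : ℤ))
        left_inv := fun g => by
          simp only [hεz]
          rw [mul_assoc, ← zpow_add, add_neg_cancel, zpow_zero, mul_one]
        right_inv := fun g => by
          simp only [hεz]
          rw [mul_assoc, ← zpow_add, neg_add_cancel, zpow_zero, mul_one] }
    have hph : ∀ g, ph g = g * s ^ ((ε g : ℤˣ) : ℤ) := fun g => rfl
    have hphs : ∀ g, (ph ^ (-1 : ℤ)) g = g * s ^ (-((ε g : ℤˣ) : ℤ)) := by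
      intro g
      rw [zpow_neg_one]
      rfl
    have hstep : ∀ g, g⁻¹ * ph g ∈ S := by
      intro g
      rw [hph, inv_mul_cancel_left]
      rcases sgn g with h1 | h1
      · rw [h1, Units.val_one, zpow_one]; exact hs
      · rw [h1, Units.val_neg, Units.val_one, zpow_neg_one]; exact hS.2.1 _ hs
    refine abs Γ S X (4 * h s) ph s 1 hS (by omega) ?_ hstep (hfinX _) ?_ ?_ ?_ ?_ le_rfl
      (by norm_num)
    · intro g
      have h1 := hXmul g (s ^ ((ε g : ℤˣ) : ℤ))
      rw [hph]
      rcases sgn g with h2 | h2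
      · rw [h2, Units.val_one, zpow_one, hXp s hsε] at h1
        rw [h2, Units.val_one, zpow_one]
        linarith
      · have h3 : ε s⁻¹ = 1 := by rw [map_inv, hsε, inv_one]
        rw [h2, Units.val_neg, Units.val_one, zpow_neg_one, hXp _ h3, h_inv hd, hsε,
          Units.val_one] at h1
        rw [h2, Units.val_neg, Units.val_one, zpow_neg_one]
        linarith
    · intro g u hu
      rw [habs]
      rcases sgn u with h1 | h1
      · rw [hXp u h1, abs_mul, hsa]
        have h9 : |h u| ≤ |h s1| := hs6 u ⟨hu, h1⟩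
        norm_num
        exact h9
      · rw [hXm u h1, abs_le]
        have b1 := htmax u ⟨hu, h1⟩
        have b2 := hrmin u ⟨hu, h1⟩
        constructor <;> omega
    · intro g g'
      refine ⟨g' * g⁻¹, ((ε (g' * g⁻¹) : ℤˣ) : ℤ), 0, ?_, ?_, ?_⟩
      · rcases sgn (g' * g⁻¹) with h1 | h1
        · left; rw [h1]; rfl
        · right; rw [h1]; rfl
      · intro y
        rcases sgn (g' * g⁻¹) with h1 | h1
        · rw [h1, Units.val_one, zpow_one, hph, hph, map_mul ε (g' * g⁻¹) y, h1, one_mul]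
          simp only [mul_assoc]
        · rw [h1, Units.val_neg, Units.val_one, hphs, hph, map_mul ε (g' * g⁻¹) y, h1, mul_assoc,
            mul_assoc, mul_assoc]
          simp
      · simp
    · intro y
      rw [hph, hph, map_mul, hsε, one_mul, mul_assoc]
    · intro y
      rw [hcX s y hsε]; push_cast; ring
  · -- reflections
    push Not at hc
    have hrt : h r ≤ h t := hrmin t ⟨htS, htε⟩
    have hT : ∀ u ∈ S, ε u = 1 → 2 * |h u| ≤ h t - h r := by
      intro u hu h1
      by_cases h2 : h u = 0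
      · rw [h2, abs_zero]; omega
      · by_contra h3
        exact h2 (hc u hu h1 (by omega))
    have hbd : ∀ u ∈ S, |X u - y₀| ≤ 2 * (h t - h r) := by
      intro u hu
      rcases sgn u with h1 | h1
      · rw [hXp u h1, abs_mul]
        have := hT u hu h1
        norm_num
        omega
      · rw [hXm u h1, abs_le]
        have b1 := htmax u ⟨hu, h1⟩
        have b2 := hrmin u ⟨hu, h1⟩
        constructor <;> omega
    have hpos : 0 < h t - h r := by
      by_contra h0
      have h1 : h t - h r = 0 := by omega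
      rw [h1] at hbd
      have hall : ∀ g, X g = y₀ := by
        intro g
        have hg : g ∈ Subgroup.closure S := by rw [hS.1]; trivial
        have st : ∀ x y, y ∈ S → X x = y₀ → X (x * y) = y₀ := by
          intro x y hy hx
          have h2 := hbd y hy
          have h3 := habs x y
          rw [mul_zero] at h2
          have h4 : |X (x * y) - X x| = 0 := le_antisymm (h3 ▸ h2) (abs_nonneg _)
          rw [abs_eq_zero] at h4
          omega
        induction hg using Subgroup.closure_induction_right with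
        | one => rw [hXd, h_one hd, map_one, Units.val_one]; ring
        | mul_right x hx y hy ih => exact st x y hy ih
        | mul_inv_cancel x hx y hy ih => exact st x _ (hS.2.1 y hy) ih
      obtain ⟨g, hg1, hg2⟩ := hd.unb
      have := hall g
      have e1 := hXp g hg1
      omega
    have hεt : ∀ g, ε (g * t) = - ε g := fun g => by rw [map_mul, htε]; simp
    have hεr : ∀ g, ε (g * r) = - ε g := fun g => by rw [map_mul, hrε]; simp
    have hεt' : ∀ g, ε (g * t⁻¹) = - ε g := fun g => by rw [map_mul, map_inv, htε]; simp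
    have hεr' : ∀ g, ε (g * r⁻¹) = - ε g := fun g => by rw [map_mul, map_inv, hrε]; simp
    let ph : Equiv.Perm Γ :=
      { toFun := fun g => if ε g = 1 then g * t else g * r
        invFun := fun g => if ε g = 1 then g * r⁻¹ else g * t⁻¹
        left_inv := fun g => by
          rcases sgn g with h1 | h1
          · simp [h1, hεt, hneg1]
          · simp [h1, hεr, hneg1]
        right_inv := fun g => by
          rcases sgn g with h1 | h1
          · simp [h1, hεr', hneg1]
          · simp [h1, hεt', hneg1] }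
    have hphp : ∀ g, ε g = 1 → ph g = g * t := fun g hg => by
      change (if ε g = 1 then g * t else g * r) = _
      rw [if_pos hg]
    have hphm : ∀ g, ε g = -1 → ph g = g * r := fun g hg => by
      change (if ε g = 1 then g * t else g * r) = _
      rw [if_neg (by rw [hg]; exact hneg1)]
    have hcom : ∀ x y, ε x = 1 → x * ph y = ph (x * y) := by
      intro x y hx
      have hxy : ε (x * y) = ε y := by rw [map_mul, hx, one_mul]
      rcases sgn y with h1 | h1
      · rw [hphp y h1, hphp _ (hxy.trans h1), mul_assoc]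
      · rw [hphm y h1, hphm _ (hxy.trans h1), mul_assoc]
    have hεph : ∀ g, ε g = -1 → ε (ph g) = 1 := fun g hg => by
      rw [hphm g hg, hεr, hg]; simp
    refine abs Γ S X (2 * (h t - h r)) ph (t * r) 2 hS (by omega) ?_ ?_ (hfinX _) ?_ ?_ ?_ ?_
      (by norm_num) le_rfl
    · intro g
      rcases sgn g with h2 | h2
      · have h1 := hXmul g t
        rw [h2, Units.val_one, hXm t htε] at h1
        rw [hphp g h2]
        linarith
      · have h1 := hXmul g r
        rw [h2, Units.val_neg, Units.val_one, hXm r hrε] at h1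
        rw [hphm g h2]
        linarith
    · intro g
      rcases sgn g with h2 | h2
      · rw [hphp g h2, inv_mul_cancel_left]; exact htS
      · rw [hphm g h2, inv_mul_cancel_left]; exact hrS
    · intro g u hu
      rw [habs]
      exact hbd u hu
    · intro g g'
      have key : ∀ g : Γ, ∃ k : ℤ, ε ((ph ^ k) g) = 1 := by
        intro g
        rcases sgn g with h1 | h1
        · exact ⟨0, by simpa using h1⟩
        · exact ⟨1, by rw [zpow_one]; exact hεph g h1⟩
      obtain ⟨k, hk⟩ := key g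
      obtain ⟨k', hk'⟩ := key g'
      have hx : ε ((ph ^ k') g' * ((ph ^ k) g)⁻¹) = 1 := by
        rw [map_mul, map_inv, hk, hk', inv_one, mul_one]
      have hcz : ∀ (n : ℤ) (y : Γ), ((ph ^ k') g' * ((ph ^ k) g)⁻¹) * (ph ^ n) y =
          (ph ^ n) (((ph ^ k') g' * ((ph ^ k) g)⁻¹) * y) := by
        intro n y
        have hc0 : Commute (Equiv.mulLeft ((ph ^ k') g' * ((ph ^ k) g)⁻¹)) ph := by
          apply Equiv.ext
          intro y
          exact hcom _ y hx
        have := (hc0.zpow_right n).eq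
        exact congrArg (fun f : Equiv.Perm Γ => f y) this
      refine ⟨(ph ^ k') g' * ((ph ^ k) g)⁻¹, 1, -k + k', Or.inl rfl, ?_, ?_⟩
      · intro y
        rw [zpow_one]
        exact hcom _ y hx
      · have h1 := hcz (-k) ((ph ^ k) g)
        have h2 : (ph ^ (-k)) ((ph ^ k) g) = g := by
          rw [← Equiv.Perm.mul_apply, ← zpow_add, neg_add_cancel]; simp
        rw [h2] at h1
        rw [h1, inv_mul_cancel_right, zpow_add, Equiv.Perm.mul_apply]
    · intro y
      exact hcom _ y (by rw [map_mul, htε, hrε]; simp)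
    · intro y
      rw [hcX _ y (by rw [map_mul, htε, hrε]; simp), hd.coc, htε, Units.val_neg, Units.val_one]
      push_cast
      ring

end

end Pool.Agent.Helper11.NW
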