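import Pool.Agent.Helper61.NW.Goals

set_option autoImplicit false

/-!
# Packet GR2 of project NW
-/

namespace Pool.Agent.Helper11.NW

open Pool.Agent.Helper52.Wq2 Pool.Agent.Helper61.NW

universe u

theorem exists_path {Γ : Type u} [Group Γ] {S : Set Γ} (hS : IsGen S) (g : Γ) :
    ∃ n : ℕ, ∃ p : ℕ → Γ, p 0 = 1 ∧ p n = g ∧ ∀ u < n, (p u)⁻¹ * p (u + 1) ∈ S := by
  have hg : g ∈ Subgroup.closure S := by rw [hS.1]; trivial
  have step : ∀ (x y : Γ), y ∈ S → (∃ n : ℕ, ∃ p : ℕ → Γ, p 0 = 1 ∧ p n = x ∧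
      ∀ u < n, (p u)⁻¹ * p (u + 1) ∈ S) → ∃ n : ℕ, ∃ p : ℕ → Γ, p 0 = 1 ∧ p n = x * y ∧
      ∀ u < n, (p u)⁻¹ * p (u + 1) ∈ S := by
    rintro x y hy ⟨n, p, h0, hn, hp⟩
    refine ⟨n + 1, fun u => if u ≤ n then p u else x * y, by simpa using h0, by simp, ?_⟩
    intro u hu
    have hu' : u ≤ n := by omega
    rcases Nat.lt_or_ge u n with h | h
    · have h2 : u + 1 ≤ n := h
      simp only [hu', h2, if_true]
      exact hp u h
    · have h3 : u = n := by omega
      subst h3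
      simp [hn, hy]
  induction hg using Subgroup.closure_induction_right with
  | one => exact ⟨0, fun _ => 1, rfl, rfl, by intro u hu; omega⟩
  | mul_right x hx y hy ih => exact step x y hy ih
  | mul_inv_cancel x hx y hy ih => exact step x _ (hS.2.1 y hy) ih

theorem short {Γ : Type u} [Group Γ] {S : Set Γ} (hS : IsGen S) (A B : Set Γ) (a b : Γ)
    (ha : a ∈ A) (hb : b ∈ B) (hAB : ∀ x ∈ A, x ∉ B) : ∃ n : ℕ, ∃ p : ℕ → Γ, 1 ≤ n ∧ p 0 ∈ A ∧
      p n ∈ B ∧ (∀ u < n, (p u)⁻¹ * p (u + 1) ∈ S) ∧ (∀ u, 1 ≤ u → u ≤ n → p u ∉ A) ∧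
      ∀ u < n, p u ∉ B := by
  classical
  have hex : ∃ n : ℕ, ∃ p : ℕ → Γ, p 0 ∈ A ∧ p n ∈ B ∧ ∀ u < n, (p u)⁻¹ * p (u + 1) ∈ S := by
    obtain ⟨n, p, h0, hn, hp⟩ := exists_path hS (a⁻¹ * b)
    refine ⟨n, fun u => a * p u, by simpa [h0] using ha, by simpa [hn] using hb, ?_⟩
    intro u hu
    have : (a * p u)⁻¹ * (a * p (u + 1)) = (p u)⁻¹ * p (u + 1) := by group
    rw [this]
    exact hp u hu
  obtain ⟨p, h0, hn, hp⟩ := Nat.find_spec hex
  have hmin := fun k (hk : k < Nat.find hex) => Nat.find_min hex hk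
  refine ⟨Nat.find hex, p, ?_, h0, hn, hp, ?_, ?_⟩
  · by_contra h
    have : Nat.find hex = 0 := by omega
    rw [this] at hn
    exact hAB _ h0 hn
  · intro u h1 h2 hu
    refine hmin (Nat.find hex - u) (by omega) ⟨fun v => p (u + v), by simpa using hu, ?_, ?_⟩
    · have : u + (Nat.find hex - u) = Nat.find hex := by omega
      simp only [this]
      exact hn
    · intro v hv
      exact hp (u + v) (by omega)
  · intro u hu hb'
    exact hmin u hu ⟨p, h0, hb', fun v hv => hp v (by omega)⟩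

theorem cen_pow {Γ : Type u} [Group Γ] {S : Set Γ} (hS : IsGen S) (hf : S.Finite)
    {K : Set Γ} (hK : K.Finite) (hcom : ∀ x y : Γ, x * y * x⁻¹ * y⁻¹ ∈ K) (s : Γ) :
    ∃ m : ℕ, 0 < m ∧ ∀ g : Γ, s ^ m * g = g * s ^ m := by
  classical
  have h1 : ∀ x : Γ, ∃ a : ℕ, 0 < a ∧ Commute (s ^ a) x := by
    intro x
    have : Finite K := hK.to_subtype
    obtain ⟨i, j, hij, h⟩ := Finite.exists_ne_map_eq_of_infinite
      (fun i : ℕ => (⟨s ^ i * x * (s ^ i)⁻¹ * x⁻¹, hcom (s ^ i) x⟩ : K))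
    have h2 : s ^ i * x * (s ^ i)⁻¹ * x⁻¹ = s ^ j * x * (s ^ j)⁻¹ * x⁻¹ := congrArg Subtype.val h
    have h3 : s ^ i * x * (s ^ i)⁻¹ = s ^ j * x * (s ^ j)⁻¹ := mul_right_cancel h2
    have key : ∀ i j : ℕ, i < j → s ^ i * x * (s ^ i)⁻¹ = s ^ j * x * (s ^ j)⁻¹ →
        ∃ a : ℕ, 0 < a ∧ Commute (s ^ a) x := by
      intro i j hij h
      refine ⟨j - i, by omega, ?_⟩
      have e : s ^ j = s ^ i * s ^ (j - i) := by rw [← pow_add]; congr 1; omega
      rw [e, mul_inv_rev] at h
      have h4 : x = s ^ (j - i) * x * (s ^ (j - i))⁻¹ := by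
        have h5 : s ^ i * x * (s ^ i)⁻¹ = s ^ i * (s ^ (j - i) * x * (s ^ (j - i))⁻¹) * (s ^ i)⁻¹ := by
          rw [h]; simp only [mul_assoc]
        exact mul_left_cancel (mul_right_cancel h5)
      have h6 : x * s ^ (j - i) = s ^ (j - i) * x := by
        nth_rw 1 [h4]
        simp
      exact h6.symm
    rcases Nat.lt_or_gt_of_ne hij with h4 | h4
    · exact key i j h4 h3
    · exact key j i h4 h3.symm
  choose a ha hca using h1
  refine ⟨∏ x ∈ hf.toFinset, a x, Finset.prod_pos fun x _ => ha x, ?_⟩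
  intro g
  have hg : g ∈ Subgroup.closure S := by rw [hS.1]; trivial
  have hle : Subgroup.closure S ≤ Subgroup.centralizer {s ^ (∏ x ∈ hf.toFinset, a x)} := by
    rw [Subgroup.closure_le]
    intro x hx
    obtain ⟨q, hq⟩ := Finset.dvd_prod_of_mem a (hf.mem_toFinset.2 hx)
    rw [SetLike.mem_coe, Subgroup.mem_centralizer_singleton_iff, hq, pow_mul]
    exact ((hca x).pow_left q).eq.symm
  have := hle hg
  rw [Subgroup.mem_centralizer_singleton_iff] at this
  exact this.symm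

theorem hom_zpow {Γ : Type u} [Group Γ] (f : Γ → ℤ) (hf : ∀ x y, f (x * y) = f x + f y) (x : Γ)
    (n : ℤ) : f (x ^ n) = n * f x := by
  let F : Γ →* Multiplicative ℤ := MonoidHom.mk' (fun x => Multiplicative.ofAdd (f x))
    (fun a b => by rw [hf]; rfl)
  have h := map_zpow F x n
  have h2 : Multiplicative.toAdd (F (x ^ n)) = n * Multiplicative.toAdd (F x) := by
    rw [h, toAdd_zpow, smul_eq_mul]
  exact h2

theorem core {Γ : Type u} [Group Γ] {S : Set Γ} (hS : IsGen S) (s t k : Γ) (hs : s ∈ S)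
    (ht : t ∈ S) (α β : Γ → ℤ) (hα : ∀ x y, α (x * y) = α x + α y)
    (hβ : ∀ x y, β (x * y) = β x + β y) (Δ : ℤ) (hΔ : 0 < Δ) (hαs : α s = Δ) (hαt : α t = 0)
    (hβs : β s = 0) (hβt : β t = Δ) (m : ℕ) (hm : 0 < m) (hsm : ∀ g, s ^ m * g = g * s ^ m)
    (htm : ∀ g, t ^ m * g = g * t ^ m) (hk : k ≠ 1) (hαk : α k = 0) (hβk : β k = 0) :
    Mn (StarZ ℕ) (cay S) := by
  have hcs : ∀ (n : ℤ), (m : ℤ) ∣ n → ∀ g, s ^ n * g = g * s ^ n := by
    rintro n ⟨q, rfl⟩ g
    rw [zpow_mul, zpow_natCast]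
    exact ((show Commute (s ^ m) g from hsm g).zpow_left q).eq
  have hct : ∀ (n : ℤ), (m : ℤ) ∣ n → ∀ g, t ^ n * g = g * t ^ n := by
    rintro n ⟨q, rfl⟩ g
    rw [zpow_mul, zpow_natCast]
    exact ((show Commute (t ^ m) g from htm g).zpow_left q).eq
  have hA : ∀ a b : ℤ, α (s ^ a * t ^ b) = a * Δ := by
    intro a b
    rw [hα, hom_zpow α hα, hom_zpow α hα, hαs, hαt, mul_zero, add_zero]
  have hB : ∀ a b : ℤ, β (s ^ a * t ^ b) = b * Δ := by
    intro a b
    rw [hβ, hom_zpow β hβ, hom_zpow β hβ, hβs, hβt, mul_zero, zero_add]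
  have inj : ∀ a b a' b' : ℤ, a * Δ = a' * Δ → b * Δ = b' * Δ → a = a' ∧ b = b' := by
    intro a b a' b' h1 h2
    exact ⟨mul_right_cancel₀ hΔ.ne' h1, mul_right_cancel₀ hΔ.ne' h2⟩
  -- multiplication by central elements
  have mulz : ∀ (a b i j : ℤ), (m : ℤ) ∣ i → (m : ℤ) ∣ j →
      s ^ a * t ^ b * (s ^ i * t ^ j) = s ^ (a + i) * t ^ (b + j) := by
    intro a b i j hi hj
    rw [zpow_add, zpow_add, mul_assoc (s ^ a), ← mul_assoc (t ^ b), ← hcs i hi (t ^ b)]
    simp only [mul_assoc]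
  have zcen : ∀ (i j : ℤ), (m : ℤ) ∣ i → (m : ℤ) ∣ j → ∀ g,
      (s ^ i * t ^ j) * g = g * (s ^ i * t ^ j) := by
    intro i j hi hj g
    rw [mul_assoc, hct j hj, ← mul_assoc, hcs i hi, mul_assoc]
  set D : Set Γ := {x | ∃ a b : ℤ, ((m : ℤ) ∣ a ∨ (m : ℤ) ∣ b) ∧ x = k * (s ^ a * t ^ b)} with hD
  obtain ⟨l, p, hl, hp0, hpl, hp, hpA, hpB⟩ := short hS (Set.range fun n : ℤ => t ^ n) D 1 k
    ⟨0, by simp⟩ ⟨0, 0, Or.inl (dvd_zero _), by simp⟩ (by
      rintro _ ⟨n, rfl⟩ ⟨a, b, _, h⟩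
      have h1 : α (t ^ n) = a * Δ := by
        have := congrArg α h
        rw [hα k, hαk, zero_add, hA] at this
        exact this
      have h2 : β (t ^ n) = b * Δ := by
        have := congrArg β h
        rw [hβ k, hβk, zero_add, hB] at this
        exact this
      rw [hom_zpow α hα, hαt, mul_zero] at h1
      rw [hom_zpow β hβ, hβt] at h2
      obtain ⟨h3, h4⟩ := inj 0 n a b (by rw [zero_mul]; exact h1) h2
      subst h3 h4
      apply hk
      have : t ^ n = k * t ^ n := by simpa using h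
      exact (mul_eq_right.1 this.symm))
  obtain ⟨e, he⟩ := hp0
  have he : p 0 = t ^ e := he.symm
  obtain ⟨a0, b0, hab0, hpl⟩ := hpl
  -- bound
  obtain ⟨R, hR⟩ : ∃ R : ℕ, ∀ u ≤ l, |α (p u)| ≤ R ∧ |β (p u)| ≤ R := by
    refine ⟨∑ u ∈ Finset.range (l + 1), ((α (p u)).natAbs + (β (p u)).natAbs), ?_⟩
    intro u hu
    have h1 : (α (p u)).natAbs + (β (p u)).natAbs ≤
        ∑ u ∈ Finset.range (l + 1), ((α (p u)).natAbs + (β (p u)).natAbs) :=
      Finset.single_le_sum (f := fun u => (α (p u)).natAbs + (β (p u)).natAbs)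
        (fun _ _ => Nat.zero_le _) (Finset.mem_range.2 (by omega))
    rw [Int.abs_eq_natAbs, Int.abs_eq_natAbs]
    constructor <;> exact_mod_cast (by omega)
  obtain ⟨M, hM⟩ : ∃ M : ℤ, M = m * (2 * R + 1) := ⟨_, rfl⟩
  have hmM : (m : ℤ) ∣ M := ⟨_, hM⟩
  have hm1 : (1 : ℤ) ≤ m := by exact_mod_cast hm
  have hMR : 2 * (R : ℤ) < M := by
    have : (2 * (R : ℤ) + 1) * 1 ≤ (2 * R + 1) * m := by
      apply mul_le_mul_of_nonneg_left hm1
      positivity
    rw [hM]
    linarith
  have hmM' : (m : ℤ) ≤ M := by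
    have : (m : ℤ) * 1 ≤ m * (2 * R + 1) := by
      apply mul_le_mul_of_nonneg_left _ (by omega)
      have : (0 : ℤ) ≤ R := Int.natCast_nonneg R
      linarith
    rw [hM]
    linarith
  have hM0 : 0 < M := by omega
  set c : ℤ := m * (b0 / m) with hc
  have hmc : (m : ℤ) ∣ c := ⟨_, rfl⟩
  have hc1 : c ≤ b0 := Int.mul_ediv_self_le (by omega)
  have hc2 : b0 < c + M := by
    have := Int.lt_mul_ediv_self_add (x := b0) (show (0 : ℤ) < m by omega)
    omega
  have win : ∀ (c : ℤ) (j j' b : ℤ), M * j + c ≤ b → b < M * (j + 1) + c → M * j' + c ≤ b →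
      b < M * (j' + 1) + c → j = j' := by
    intro c j j' b h1 h2 h3 h4
    have a1 : M * j < M * (j' + 1) := by linarith
    have a2 : M * j' < M * (j + 1) := by linarith
    have b1 : j < j' + 1 := lt_of_mul_lt_mul_left a1 hM0.le
    have b2 : j' < j + 1 := lt_of_mul_lt_mul_left a2 hM0.le
    omega
  have hz : ∀ i : ℤ, (m : ℤ) ∣ M * i := fun i => hmM.mul_right i
  -- the sets
  let B : ℤ → Set Γ := fun j => {x | ∃ a b : ℤ, ((m : ℤ) ∣ a ∨ (m : ℤ) ∣ b) ∧ M * j + c ≤ b ∧
    b < M * (j + 1) + c ∧ x = k * (s ^ a * t ^ b)}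
  let P : ℤ → Set Γ := fun j => {x | ∃ (i : ℕ) (u : ℕ), 1 ≤ u ∧ u < l ∧
    x = p u * (s ^ (M * i) * t ^ (M * j))}
  let L : ℤ → ℕ → Set Γ := fun j i => {x | ∃ b : ℤ, M * j + e ≤ b ∧ b < M * (j + 1) + e ∧
    x = s ^ (M * i) * t ^ b}
  have hlast : ∀ (i : ℕ) (j : ℤ), p l * (s ^ (M * i) * t ^ (M * j)) ∈ B j := by
    intro i j
    refine ⟨a0 + M * i, b0 + M * j, ?_, by linarith, by linarith, ?_⟩
    · rcases hab0 with h | h
      · exact Or.inl (dvd_add h (hz _))
      · exact Or.inr (dvd_add h (hz _))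
    · rw [hpl, mul_assoc, mulz _ _ _ _ (hz _) (hz _)]
  have hmem : ∀ (i : ℕ) (j : ℤ) (u : ℕ), 1 ≤ u → u ≤ l →
      p u * (s ^ (M * i) * t ^ (M * j)) ∈ B j ∪ P j := by
    intro i j u h1 h2
    rcases Nat.lt_or_ge u l with h | h
    · exact Or.inr ⟨i, u, h1, h, rfl⟩
    · have : u = l := by omega
      rw [this]
      exact Or.inl (hlast i j)
  have adjz : ∀ (x y z : Γ), (∀ g, z * g = g * z) → x⁻¹ * y ∈ S →
      (cay S).Adj (x * z) (y * z) := by
    intro x y z hzc hxy
    rw [cay_adj hS]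
    have : (x * z)⁻¹ * (y * z) = x⁻¹ * y := by
      rw [← hzc y, mul_inv_rev, mul_assoc, ← mul_assoc x⁻¹, ← hzc x⁻¹]
      simp [mul_assoc]
    rw [this]
    exact hxy
  refine ⟨fun v => match v.2 with
    | none => B v.1 ∪ P v.1
    | some i => L v.1 i, ?_, ?_, ?_⟩
  · rintro ⟨j, _ | i⟩
    · -- the centre
      change Conn (cay S) (B j ∪ P j)
      have hroot : k * (s ^ (0 : ℤ) * t ^ (M * j + c)) ∈ B j :=
        ⟨0, M * j + c, Or.inl (dvd_zero _), le_rfl, by linarith, rfl⟩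
      refine ⟨⟨_, Or.inl hroot⟩, ?_⟩
      intro A hAs hne hcl
      have iff : ∀ x y, x ∈ B j ∪ P j → y ∈ B j ∪ P j → (cay S).Adj x y → (x ∈ A ↔ y ∈ A) :=
        fun x y hx hy hxy => ⟨fun h => hcl x h y hy hxy, fun h => hcl y h x hx hxy.symm⟩
      have hor : ∀ b : ℤ, (m : ℤ) ∣ b → M * j + c ≤ b → b < M * (j + 1) + c → ∀ a : ℤ,
          (k * (s ^ a * t ^ b) ∈ A ↔ k * (s ^ (0 : ℤ) * t ^ b) ∈ A) := by
        intro b hb h1 h2
        have st : ∀ a : ℤ, (k * (s ^ a * t ^ b) ∈ A ↔ k * (s ^ (a + 1) * t ^ b) ∈ A) := by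
          intro a
          refine iff _ _ (Or.inl ⟨a, b, Or.inr hb, h1, h2, rfl⟩)
            (Or.inl ⟨a + 1, b, Or.inr hb, h1, h2, rfl⟩) ?_
          have e1 : k * (s ^ (a + 1) * t ^ b) = k * (s ^ a * t ^ b) * s := by
            rw [zpow_add_one, mul_assoc (s ^ a), ← hct b hb s]
            simp only [mul_assoc]
          rw [e1]
          exact cay_adj_mul hS _ hs
        intro a
        induction a using Int.induction_on with
        | zero => exact Iff.rfl
        | succ n ih => exact (st n).symm.trans ih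
        | pred n ih =>
          have := st (-(n : ℤ) - 1)
          rw [sub_add_cancel] at this
          exact this.trans ih
      have ver : ∀ a : ℤ, (m : ℤ) ∣ a → ∀ n : ℕ, M * j + c + n < M * (j + 1) + c →
          (k * (s ^ a * t ^ (M * j + c + n)) ∈ A ↔ k * (s ^ a * t ^ (M * j + c)) ∈ A) := by
        intro a ha n
        induction n with
        | zero => intro _; rw [Nat.cast_zero, add_zero]
        | succ n ih =>
          intro hn
          push_cast at hn
          refine Iff.trans ?_ (ih (by linarith))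
          refine (iff _ _ (Or.inl ⟨a, _, Or.inl ha, ?_, ?_, rfl⟩)
            (Or.inl ⟨a, _, Or.inl ha, ?_, ?_, rfl⟩) ?_).symm
          · have : (0 : ℤ) ≤ n := Int.natCast_nonneg n
            linarith
          · linarith
          · push_cast
            have : (0 : ℤ) ≤ n := Int.natCast_nonneg n
            linarith
          · push_cast
            linarith
          · have e1 : k * (s ^ a * t ^ (M * j + c + ((n + 1 : ℕ) : ℤ))) =
                k * (s ^ a * t ^ (M * j + c + n)) * t := by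
              have : M * j + c + ((n + 1 : ℕ) : ℤ) = (M * j + c + n) + 1 := by push_cast; ring
              rw [this, zpow_add_one]
              simp only [mul_assoc]
            rw [e1]
            exact cay_adj_mul hS _ ht
      have all1 : ∀ x ∈ B j, (x ∈ A ↔ k * (s ^ (0 : ℤ) * t ^ (M * j + c)) ∈ A) := by
        rintro _ ⟨a, b, hab, h1, h2, rfl⟩
        obtain ⟨n, hn⟩ := Int.eq_ofNat_of_zero_le (sub_nonneg.2 h1)
        have hb : b = M * j + c + n := by linarith
        rcases hab with h | h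
        · subst hb
          exact (ver a h n h2).trans (hor (M * j + c) (dvd_add (hz j) hmc) le_rfl
            (by linarith) a)
        · refine (hor b h h1 h2 a).trans ?_
          subst hb
          exact ver 0 (dvd_zero _) n h2
      have all2 : ∀ x ∈ P j, (x ∈ A ↔ k * (s ^ (0 : ℤ) * t ^ (M * j + c)) ∈ A) := by
        rintro _ ⟨i, u, h1, h2, rfl⟩
        have key : ∀ n : ℕ, ∀ u, 1 ≤ u → u + n = l →
            (p u * (s ^ (M * i) * t ^ (M * j)) ∈ A ↔
              p l * (s ^ (M * i) * t ^ (M * j)) ∈ A) := by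
          intro n
          induction n with
          | zero => intro u _ hu; rw [← hu, add_zero]
          | succ n ih =>
            intro u h1 hu
            refine Iff.trans ?_ (ih (u + 1) (by omega) (by omega))
            exact iff _ _ (hmem i j u h1 (by omega)) (hmem i j (u + 1) (by omega) (by omega))
              (adjz _ _ _ (zcen _ _ (hz _) (hz _)) (hp u (by omega)))
        exact (key (l - u) u h1 (by omega)).trans (all1 _ (hlast i j))
      have hrA : k * (s ^ (0 : ℤ) * t ^ (M * j + c)) ∈ A := by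
        obtain ⟨x, hx⟩ := hne
        rcases hAs hx with h | h
        · exact (all1 x h).1 hx
        · exact (all2 x h).1 hx
      rintro x (hx | hx)
      · exact (all1 x hx).2 hrA
      · exact (all2 x hx).2 hrA
    · change Conn (cay S) (L j i)
      have h := conn_line (G := cay S) (fun b : ℤ => s ^ (M * i) * t ^ b)
        (fun b => M * j + e ≤ b ∧ b < M * (j + 1) + e) (M * j + e) ⟨le_rfl, by linarith⟩
        (fun x hx h => ⟨hx, by linarith [h.2]⟩) (fun x hx h => ⟨by linarith [h.1], by linarith⟩)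
        (fun x _ _ => by
          rw [zpow_add_one, ← mul_assoc]
          exact cay_adj_mul hS _ ht)
      have e1 : {v | ∃ x : ℤ, (M * j + e ≤ x ∧ x < M * (j + 1) + e) ∧
          s ^ (M * i) * t ^ x = v} = L j i := by
        ext v
        constructor
        · rintro ⟨x, ⟨h1, h2⟩, rfl⟩
          exact ⟨x, h1, h2, rfl⟩
        · rintro ⟨x, h1, h2, rfl⟩
          exact ⟨x, ⟨h1, h2⟩, rfl⟩
      rw [e1] at h
      exact h
  · -- disjointness
    have small : ∀ (x i i' : ℤ), |x| ≤ 2 * R → x + M * i * Δ = M * i' * Δ → i = i' := by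
      intro x i i' hx h
      have h1 : x = M * Δ * (i' - i) := by linarith
      by_contra hne
      have h2 : 1 ≤ |i' - i| := Int.one_le_abs (by omega)
      have h3 : |x| = M * Δ * |i' - i| := by
        rw [h1, abs_mul, abs_of_pos (mul_pos hM0 hΔ)]
      have h4 : M * Δ * 1 ≤ M * Δ * |i' - i| := by
        apply mul_le_mul_of_nonneg_left h2
        exact (mul_pos hM0 hΔ).le
      have h5 : M * 1 ≤ M * Δ := mul_le_mul_of_nonneg_left (by omega) hM0.le
      linarith
    have BB : ∀ j j' x, x ∈ B j → x ∈ B j' → j = j' := by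
      rintro j j' _ ⟨a, b, _, h1, h2, rfl⟩ ⟨a', b', _, h3, h4, h⟩
      have h5 := mul_left_cancel h
      have h6 := congrArg β h5
      rw [hB, hB] at h6
      have h7 : b = b' := mul_right_cancel₀ hΔ.ne' h6
      subst h7
      exact win c j j' b h1 h2 h3 h4
    have BP : ∀ j j' x, x ∈ B j → x ∉ P j' := by
      rintro j j' _ ⟨a, b, hab, h1, h2, rfl⟩ ⟨i, u, h3, h4, h⟩
      apply hpB u h4
      refine ⟨a - M * i, b - M * j', ?_, ?_⟩
      · rcases hab with h | h
        · exact Or.inl (dvd_sub h (hz _))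
        · exact Or.inr (dvd_sub h (hz _))
      · have h5 : p u * (s ^ (M * i) * t ^ (M * j')) =
            k * (s ^ (a - M * i) * t ^ (b - M * j')) * (s ^ (M * i) * t ^ (M * j')) := by
          rw [← h, mul_assoc k, mulz _ _ _ _ (hz _) (hz _), sub_add_cancel, sub_add_cancel]
        exact mul_right_cancel h5
    have PP : ∀ j j' x, x ∈ P j → x ∈ P j' → j = j' := by
      rintro j j' _ ⟨i, u, h1, h2, rfl⟩ ⟨i', u', h3, h4, h⟩
      have h6 := congrArg β h
      rw [hβ (p u), hβ (p u'), hB, hB] at h6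
      refine small (β (p u) - β (p u')) j j' ?_ (by linarith)
      have r1 := (hR u (by omega)).2
      have r2 := (hR u' (by omega)).2
      rw [abs_le] at r1 r2 ⊢
      constructor <;> linarith
    have BL : ∀ j j' i x, x ∈ B j → x ∉ L j' i := by
      rintro j j' i _ ⟨a, b, hab, h1, h2, rfl⟩ ⟨b', h3, h4, h⟩
      have h5 := congrArg α h
      have h6 := congrArg β h
      rw [hα k, hαk, zero_add, hA, hA] at h5
      rw [hβ k, hβk, zero_add, hB, hB] at h6
      obtain ⟨h7, h8⟩ := inj a b _ b' h5 h6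
      rw [h7, h8] at h
      exact hk (mul_eq_right.1 h)
    have PL : ∀ j j' i x, x ∈ P j → x ∉ L j' i := by
      rintro j j' i _ ⟨i', u, h1, h2, rfl⟩ ⟨b, h3, h4, h⟩
      have h5 := congrArg α h
      rw [hα (p u), hA, hA] at h5
      have h7 : (i' : ℤ) = i := by
        refine small (α (p u)) i' i ?_ h5
        have r1 := (hR u (by omega)).1
        have : (0 : ℤ) ≤ R := Int.natCast_nonneg R
        linarith
      apply hpA u h1 (by omega)
      refine ⟨b - M * j, ?_⟩
      have h8 : p u * (s ^ (M * (i' : ℤ)) * t ^ (M * j)) =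
          t ^ (b - M * j) * (s ^ (M * (i' : ℤ)) * t ^ (M * j)) := by
        rw [h, h7, ← zcen _ _ (hz _) (hz _), mul_assoc, ← zpow_add]
        congr 2
        ring
      exact (mul_right_cancel h8).symm
    have LL : ∀ j j' i i' x, x ∈ L j i → x ∈ L j' i' → j = j' ∧ i = i' := by
      rintro j j' i i' _ ⟨b, h1, h2, rfl⟩ ⟨b', h3, h4, h⟩
      have h5 := congrArg α h
      have h6 := congrArg β h
      rw [hA, hA] at h5
      rw [hB, hB] at h6
      obtain ⟨h7, h8⟩ := inj _ b _ b' h5 h6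
      subst h8
      refine ⟨win e j j' b h1 h2 h3 h4, ?_⟩
      have := mul_left_cancel₀ hM0.ne' h7
      exact_mod_cast this
    rintro ⟨j, _ | i⟩ ⟨j', _ | i'⟩ x hx hx'
    · have hx : x ∈ B j ∪ P j := hx
      have hx' : x ∈ B j' ∪ P j' := hx'
      have : j = j' := by
        rcases hx with h | h <;> rcases hx' with h' | h'
        · exact BB j j' x h h'
        · exact absurd h' (BP j j' x h)
        · exact absurd h (BP j' j x h')
        · exact PP j j' x h h'
      rw [this]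
    · have hx : x ∈ B j ∪ P j := hx
      have hx' : x ∈ L j' i' := hx'
      rcases hx with h | h
      · exact absurd hx' (BL j j' i' x h)
      · exact absurd hx' (PL j j' i' x h)
    · have hx : x ∈ L j i := hx
      have hx' : x ∈ B j' ∪ P j' := hx'
      rcases hx' with h | h
      · exact absurd hx (BL j' j i x h)
      · exact absurd hx (PL j' j i x h)
    · have hx : x ∈ L j i := hx
      have hx' : x ∈ L j' i' := hx'
      obtain ⟨h1, h2⟩ := LL j j' i i' x hx hx'
      rw [h1, h2]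
  · -- edges
    have lineB : ∀ j : ℤ, ∃ a ∈ B j ∪ P j, ∃ b ∈ B (j + 1) ∪ P (j + 1), (cay S).Adj a b := by
      intro j
      refine ⟨k * (s ^ (0 : ℤ) * t ^ (M * (j + 1) + c - 1)), Or.inl ⟨0, _, Or.inl (dvd_zero _),
        by linarith, by linarith, rfl⟩, k * (s ^ (0 : ℤ) * t ^ (M * (j + 1) + c)),
        Or.inl ⟨0, _, Or.inl (dvd_zero _), le_rfl, by linarith, rfl⟩, ?_⟩
      have e1 : k * (s ^ (0 : ℤ) * t ^ (M * (j + 1) + c)) =
          k * (s ^ (0 : ℤ) * t ^ (M * (j + 1) + c - 1)) * t := by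
        rw [mul_assoc k, mul_assoc (s ^ (0 : ℤ)), ← zpow_add_one, sub_add_cancel]
      rw [e1]
      exact cay_adj_mul hS _ ht
    have lineL : ∀ (j : ℤ) (i : ℕ), ∃ a ∈ L j i, ∃ b ∈ L (j + 1) i, (cay S).Adj a b := by
      intro j i
      refine ⟨s ^ (M * i) * t ^ (M * (j + 1) + e - 1), ⟨_, by linarith, by linarith, rfl⟩,
        s ^ (M * i) * t ^ (M * (j + 1) + e), ⟨_, le_rfl, by linarith, rfl⟩, ?_⟩
      have e1 : s ^ (M * i) * t ^ (M * (j + 1) + e) =
          s ^ (M * i) * t ^ (M * (j + 1) + e - 1) * t := by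
        rw [mul_assoc, ← zpow_add_one, sub_add_cancel]
      rw [e1]
      exact cay_adj_mul hS _ ht
    have spoke : ∀ (j : ℤ) (i : ℕ), ∃ a ∈ B j ∪ P j, ∃ b ∈ L j i, (cay S).Adj a b := by
      intro j i
      refine ⟨p 1 * (s ^ (M * i) * t ^ (M * j)), hmem i j 1 le_rfl hl,
        p 0 * (s ^ (M * i) * t ^ (M * j)), ⟨M * j + e, le_rfl, by linarith, ?_⟩, ?_⟩
      · rw [he, ← zcen _ _ (hz _) (hz _), mul_assoc, ← zpow_add]
      · exact (adjz _ _ _ (zcen _ _ (hz _) (hz _)) (hp 0 (by omega))).symm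
    rintro ⟨x, o⟩ ⟨y, o'⟩ hadj
    unfold StarZ at hadj
    rw [SimpleGraph.fromRel_adj] at hadj
    obtain ⟨hne, (⟨h1, h2⟩ | ⟨h1, h2⟩) | (⟨h1, h2⟩ | ⟨h1, h2⟩)⟩ := hadj
    · simp only at h1 h2
      subst h1 h2
      rcases o with _ | i
      · exact lineB x
      · exact lineL x i
    · simp only at h1 h2
      subst h1 h2
      rcases o' with _ | i
      · exact absurd rfl hne
      · exact spoke x i
    · simp only at h1 h2
      subst h1 h2
      rcases o' with _ | i
      · obtain ⟨a, ha, b, hb, hab⟩ := lineB y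
        exact ⟨b, hb, a, ha, hab.symm⟩
      · obtain ⟨a, ha, b, hb, hab⟩ := lineL y i
        exact ⟨b, hb, a, ha, hab.symm⟩
    · simp only at h1 h2
      subst h1 h2
      rcases o with _ | i
      · exact absurd rfl hne
      · obtain ⟨a, ha, b, hb, hab⟩ := spoke y i
        exact ⟨b, hb, a, ha, hab.symm⟩

theorem gr2 : Gr2Stmt.{u} := by
  intro Γ _ h S hsurj hK hk hS hf
  obtain ⟨k, hk1, hk2⟩ := hk
  let X : Γ → ℤ := fun g => (Multiplicative.toAdd (h g)).1
  let Y : Γ → ℤ := fun g => (Multiplicative.toAdd (h g)).2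
  have hX : ∀ x y, X (x * y) = X x + X y := fun x y => by
    change (Multiplicative.toAdd (h (x * y))).1 = _
    rw [map_mul]; rfl
  have hY : ∀ x y, Y (x * y) = Y x + Y y := fun x y => by
    change (Multiplicative.toAdd (h (x * y))).2 = _
    rw [map_mul]; rfl
  have hXk : X k = 0 := by
    change (Multiplicative.toAdd (h k)).1 = _
    rw [hk2]; rfl
  have hYk : Y k = 0 := by
    change (Multiplicative.toAdd (h k)).2 = _
    rw [hk2]; rfl
  have hcom : ∀ x y : Γ, x * y * x⁻¹ * y⁻¹ ∈ (h.ker : Set Γ) := by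
    intro x y
    rw [SetLike.mem_coe, MonoidHom.mem_ker]
    simp only [map_mul, map_inv]
    rw [mul_comm (h x) (h y)]
    simp
  -- linear functionals vanish if they vanish on `S`
  have lin : ∀ a b : ℤ, (∀ g ∈ S, a * X g + b * Y g = 0) → a = 0 ∧ b = 0 := by
    intro a b hab
    let F : Γ →* Multiplicative ℤ := MonoidHom.mk' (fun x => Multiplicative.ofAdd (a * X x + b * Y x))
      (fun x y => by rw [hX, hY, ← ofAdd_add]; congr 1; ring)
    have hle : Subgroup.closure S ≤ F.ker := by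
      rw [Subgroup.closure_le]
      intro g hg
      rw [SetLike.mem_coe, MonoidHom.mem_ker]
      change Multiplicative.ofAdd (a * X g + b * Y g) = 1
      rw [hab g hg]; rfl
    have hall : ∀ g, a * X g + b * Y g = 0 := by
      intro g
      have hg : g ∈ Subgroup.closure S := by rw [hS.1]; trivial
      have := hle hg
      rw [MonoidHom.mem_ker] at this
      exact this
    obtain ⟨g1, h1⟩ := hsurj (Multiplicative.ofAdd (1, 0))
    obtain ⟨g2, h2⟩ := hsurj (Multiplicative.ofAdd (0, 1))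
    have e1 : X g1 = 1 := by change (Multiplicative.toAdd (h g1)).1 = _; rw [h1]; rfl
    have e2 : Y g1 = 0 := by change (Multiplicative.toAdd (h g1)).2 = _; rw [h1]; rfl
    have e3 : X g2 = 0 := by change (Multiplicative.toAdd (h g2)).1 = _; rw [h2]; rfl
    have e4 : Y g2 = 1 := by change (Multiplicative.toAdd (h g2)).2 = _; rw [h2]; rfl
    have f1 := hall g1
    have f2 := hall g2
    rw [e1, e2] at f1
    rw [e3, e4] at f2
    constructor <;> linarith
  have ex1 : ∃ s ∈ S, X s ≠ 0 := by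
    by_contra hcon
    push Not at hcon
    have := (lin 1 0 (fun g hg => by rw [hcon g hg]; ring)).1
    omega
  obtain ⟨s, hs, hXs⟩ := ex1
  have ex2 : ∃ t ∈ S, X s * Y t - Y s * X t ≠ 0 := by
    by_contra hcon
    push Not at hcon
    have := (lin (-(Y s)) (X s) (fun g hg => by have := hcon g hg; linarith)).2
    exact hXs this
  have ex3 : ∃ s ∈ S, ∃ t ∈ S, 0 < X s * Y t - Y s * X t := by
    obtain ⟨t, ht, h1⟩ := ex2
    rcases lt_or_gt_of_ne h1 with h2 | h2
    · exact ⟨t, ht, s, hs, by linarith⟩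
    · exact ⟨s, hs, t, ht, h2⟩
  obtain ⟨s, hs, t, ht, hpos⟩ := ex3
  obtain ⟨m1, hm1, hc1⟩ := cen_pow hS hf hK hcom s
  obtain ⟨m2, hm2, hc2⟩ := cen_pow hS hf hK hcom t
  refine core hS s t k hs ht (fun g => X g * Y t - Y g * X t) (fun g => X s * Y g - Y s * X g)
    (fun x y => by simp only [hX, hY]; ring) (fun x y => by simp only [hX, hY]; ring)
    (X s * Y t - Y s * X t) hpos rfl (by ring) (by ring) rfl (m1 * m2) (Nat.mul_pos hm1 hm2)
    ?_ ?_ hk1 (by simp only [hXk, hYk]; ring) (by simp only [hXk, hYk]; ring)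
  · intro g
    rw [pow_mul]
    exact ((show Commute (s ^ m1) g from hc1 g).pow_left m2).eq
  · intro g
    rw [mul_comm m1 m2, pow_mul]
    exact ((show Commute (t ^ m2) g from hc2 g).pow_left m1).eq

end Pool.Agent.Helper11.NW
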